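import Pool.Agent.helper92.ISO.SpecC
import Pool.Agent.helper64.PB.SpecA

/-!
# Row PUB of project ISO: from pruning to the distinguishers
-/

set_option autoImplicit false

open Filter Topology

namespace Pool.Agent.ISO

open Pool.Agent.PB

/-- polynomial growth -/
def PUB_G (g : ℕ → ℕ) : Prop := ∃ d : ℕ, ∀ N, g N ≤ (N + 2) ^ d

theorem PUB_pm (N : ℕ) {d e : ℕ} (h : d ≤ e) : (N + 2) ^ d ≤ (N + 2) ^ e :=
  Nat.pow_le_pow_right (by omega) h

theorem PUB_add {g h : ℕ → ℕ} (hg : PUB_G g) (hh : PUB_G h) : PUB_G (fun N => g N + h N) := by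
  obtain ⟨d, hd⟩ := hg
  obtain ⟨e, he⟩ := hh
  refine ⟨max d e + 1, fun N => ?_⟩
  have h1 := (hd N).trans (PUB_pm N (le_max_left d e))
  have h2 := (he N).trans (PUB_pm N (le_max_right d e))
  show g N + h N ≤ (N + 2) ^ (max d e + 1)
  rw [pow_succ]
  have h3 : (N + 2) ^ max d e * 2 ≤ (N + 2) ^ max d e * (N + 2) :=
    Nat.mul_le_mul_left _ (by omega)
  omega

theorem PUB_mul {g h : ℕ → ℕ} (hg : PUB_G g) (hh : PUB_G h) : PUB_G (fun N => g N * h N) := by
  obtain ⟨d, hd⟩ := hg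
  obtain ⟨e, he⟩ := hh
  refine ⟨d + e, fun N => ?_⟩
  show g N * h N ≤ (N + 2) ^ (d + e)
  rw [pow_add]
  exact Nat.mul_le_mul (hd N) (he N)

theorem PUB_pow {g : ℕ → ℕ} (hg : PUB_G g) (k : ℕ) : PUB_G (fun N => g N ^ k) := by
  obtain ⟨d, hd⟩ := hg
  refine ⟨d * k, fun N => ?_⟩
  show g N ^ k ≤ (N + 2) ^ (d * k)
  rw [pow_mul]
  exact Nat.pow_le_pow_left (hd N) k

theorem PUB_const (c : ℕ) : PUB_G (fun _ => c) := by
  refine ⟨c, fun N => ?_⟩
  show c ≤ (N + 2) ^ c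
  exact (Nat.lt_two_pow_self (n := c)).le.trans (Nat.pow_le_pow_left (by omega) c)

theorem PUB_id : PUB_G (fun N => N) := ⟨1, fun N => by rw [pow_one]; exact Nat.le_add_right N 2⟩

/-- back to the form `N ^ c + c` -/
theorem PUB_back {g : ℕ → ℕ} (hg : PUB_G g) : ∃ c : ℕ, ∀ N, g N ≤ N ^ c + c := by
  obtain ⟨d, hd⟩ := hg
  refine ⟨3 ^ d + 2 * d, fun N => (hd N).trans ?_⟩
  rcases Nat.lt_or_ge N 2 with h | h
  · have h1 : (N + 2) ^ d ≤ 3 ^ d := Nat.pow_le_pow_left (by omega) d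
    exact h1.trans ((Nat.le_add_right _ _).trans (Nat.le_add_left _ _))
  · have h1 : N + 2 ≤ N ^ 2 := by nlinarith
    have h2 : (N + 2) ^ d ≤ N ^ (2 * d) := by
      rw [pow_mul]
      exact Nat.pow_le_pow_left h1 d
    have h3 : N ^ (2 * d) ≤ N ^ (3 ^ d + 2 * d) := Nat.pow_le_pow_right (by omega) (Nat.le_add_left _ _)
    exact (h2.trans h3).trans (Nat.le_add_right _ _)

theorem PUB_size {n s t : ℕ} {f : BF n} (h : Size std f s) (hst : s ≤ t) : Size std f t := by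
  obtain ⟨l, h1, h2, h3⟩ := h
  exact ⟨l, h1, h2.trans hst, h3⟩

/-- all functions of at most `n0` variables -/
theorem PUB_small (hDNF : DNF_stmt) (n0 : ℕ) : ∃ c : ℕ, ∀ n < n0, ∀ D : BF n, Size std D c := by
  induction n0 with
  | zero => exact ⟨0, fun n hn => absurd hn (Nat.not_lt_zero n)⟩
  | succ n0 ih =>
    obtain ⟨c, hc⟩ := ih
    have h1 : ∀ D : BF n0, ∃ s, Size std D s := fun D => hDNF.1 n0 D
    choose s hs using h1
    refine ⟨c + ∑ D : BF n0, s D, fun n hn D => ?_⟩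
    rcases Nat.lt_or_ge n n0 with h | h
    · exact PUB_size (hc n h D) (Nat.le_add_right _ _)
    · have h2 : n = n0 := by omega
      subst h2
      have h3 : s D ≤ ∑ D : BF n, s D := Finset.single_le_sum (fun _ _ => Nat.zero_le _) (Finset.mem_univ D)
      exact PUB_size (hs D) (h3.trans (Nat.le_add_left _ _))

theorem PUB_proof (hLVS : LVS_stmt) (hUNP : UNP_stmt) (hCOR : COR_stmt) (hDNF : DNF_stmt) : PUB_stmt := by
  intro δ m κ p hδ hAll hev c
  obtain ⟨a0, ha0⟩ := exists_nat_gt (1 / δ)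
  obtain ⟨a, hadef⟩ : ∃ a : ℕ, a = a0 + 1 := ⟨_, rfl⟩
  have ha1 : 1 ≤ a := by omega
  have haδ : 1 ≤ (a : ℝ) * δ := by
    have h1 : 1 / δ < (a : ℝ) := by
      rw [hadef]
      push_cast
      linarith
    rw [div_lt_iff₀ hδ] at h1
    exact h1.le
  -- the bounds
  have hpc : PUB_G (fun N => N ^ c + c) := PUB_add (PUB_pow PUB_id c) (PUB_const c)
  obtain ⟨c1, hc1⟩ := PUB_back (PUB_add (PUB_add PUB_id (PUB_mul PUB_id hpc))
    (PUB_pow (PUB_add (PUB_add (PUB_mul (PUB_const 4) PUB_id) (PUB_mul (PUB_const 2) hpc)) (PUB_const 2)) 8))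
  obtain ⟨c2, hc2⟩ := hUNP m κ p hAll c1
  have hp2 : PUB_G (fun N => N ^ c2 + c2) := PUB_add (PUB_pow PUB_id c2) (PUB_const c2)
  obtain ⟨c3, hc3⟩ := PUB_back (PUB_pow (PUB_add (PUB_add (PUB_mul (PUB_const 2) hp2)
    (PUB_add PUB_id (PUB_add PUB_id (PUB_mul PUB_id hpc)))) (PUB_const 2)) 10)
  obtain ⟨N0, hN0⟩ := eventually_atTop.1 hev
  obtain ⟨cs, hcs⟩ := PUB_small hDNF (N0 + 1)
  refine ⟨a * c3 + c3 + cs, fun n w f hw hf => ?_⟩
  rcases Nat.lt_or_ge n (N0 + 1) with hn | hn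
  · -- small `n`
    refine ⟨fun x => decide (1 ≤ wit f x), PUB_size (hcs n hn _) (by omega), fun x hx => ?_, fun x hx => ?_⟩
    · show decide (1 ≤ wit f x) = true
      rw [hx]
      rfl
    · show decide (1 ≤ wit f x) = false
      rw [hx]
      rfl
  · have hn1 : 1 ≤ n := by omega
    have hNn : n ≤ n ^ a := by
      calc n = n ^ 1 := (pow_one n).symm
        _ ≤ n ^ a := Nat.pow_le_pow_right hn1 ha1
    obtain ⟨M, R, K, hM1, hMN, hR, hK⟩ := hN0 (n ^ a) (by omega)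
    have hn1R : (1 : ℝ) ≤ n := by exact_mod_cast hn1
    have hn0R : (0 : ℝ) < n := by linarith
    -- `M n ≤ N`
    have hM2 : (M : ℝ) ≤ (n : ℝ) ^ (a - 1) := by
      refine hMN.trans ?_
      rw [Nat.cast_pow, ← Real.rpow_natCast (n : ℝ) a, ← Real.rpow_mul hn0R.le,
        ← Real.rpow_natCast (n : ℝ) (a - 1)]
      refine Real.rpow_le_rpow_of_exponent_le hn1R ?_
      rw [Nat.cast_sub ha1, Nat.cast_one]
      nlinarith
    have hM3 : M ≤ n ^ (a - 1) := by exact_mod_cast hM2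
    have hMn : M * n ≤ n ^ a := by
      calc M * n ≤ n ^ (a - 1) * n := Nat.mul_le_mul_right n hM3
        _ = n ^ a := by rw [← pow_succ, Nat.sub_add_cancel ha1]
    generalize hNdef : n ^ a = N at hNn hR hK hMn
    have hMN2 : M ≤ N := by
      calc M = M * 1 := (mul_one M).symm
        _ ≤ M * n := Nat.mul_le_mul_left M hn1
        _ ≤ N := hMn
    have hcN : n ^ c + c ≤ N ^ c + c := Nat.add_le_add_right (Nat.pow_le_pow_left hNn c) c
    have hMw : M * w ≤ N * (N ^ c + c) := Nat.mul_le_mul hMN2 (hw.trans hcN)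
    -- the list verifier
    have hV := hLVS n w M R N (n ^ c + c) (4 * N + 2 * (N ^ c + c) + 2) f hMn K hf (by omega)
    have hb1 := hc1 N
    have hV2 : Size std (listV f N hMn K) (N ^ c1 + c1) := PUB_size hV (by omega)
    have hw2 : R + M * w ≤ N ^ c1 + c1 := by
      refine le_trans ?_ hb1
      have h1 : R + M * w ≤ N + N * (N ^ c + c) := Nat.add_le_add hR hMw
      omega
    have hPr := hc2 N (R + M * w) (listV f N hMn K) hw2 hV2
    have hC := hCOR n w M R N (m N) (κ N) (N ^ c2 + c2)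
      (2 * (N ^ c2 + c2) + (N + (N + N * (N ^ c + c))) + 2) (p N) f hMn K hM1 hK hPr (by omega)
    obtain ⟨D, hD1, hD2, hD3⟩ := hC
    refine ⟨D, PUB_size hD1 ((hc3 N).trans ?_), hD2, hD3⟩
    rw [← hNdef, ← pow_mul]
    have h1 : n ^ (a * c3) ≤ n ^ (a * c3 + c3 + cs) := Nat.pow_le_pow_right hn1 (by omega)
    omega

end Pool.Agent.ISO
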