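import Pool.Agent.helper92.ISO.SpecC

/-!
# Row VVL of project ISO: a list of hash functions
-/

set_option autoImplicit false

open Filter Topology

namespace Pool.Agent.ISO

open Pool.Agent.PB

open Classical in
theorem VVL_proof (hVVP : VVP_stmt) (hPTL : PTL_stmt) : VVL_stmt := by
  intro n w f
  by_cases hne : Nonempty {x : Fin n → Bool // 1 ≤ wit f x}
  swap
  · refine ⟨fun _ => (0, fun _ => (fun _ => false, false)), fun x hx => absurd ⟨⟨x, hx⟩⟩ hne⟩
  have hq0 : (0 : ℝ) < 1 / (8 * ((w : ℝ) + 3)) := by positivity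
  obtain ⟨P, hP⟩ : ∃ P : HI w → {x : Fin n → Bool // 1 ≤ wit f x} → Prop, ∀ h x, P h x ↔
      (Finset.univ.filter fun y : Fin w → Bool => f (Fin.append x.1 y) = true ∧ hsat h y).card = 1 :=
    ⟨_, fun _ _ => Iff.rfl⟩
  have hVV : ∀ a : {x : Fin n → Bool // 1 ≤ wit f x}, (Fintype.card (HI w) : ℝ) ≤
      8 * ((w : ℝ) + 3) * ((Finset.univ.filter fun h : HI w => P h a).card : ℝ) := by
    intro a
    have h4 := hVVP w (Finset.univ.filter fun y : Fin w → Bool => f (Fin.append a.1 y) = true) (by
      rw [← Finset.card_pos]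
      exact a.2)
    simp only [Finset.filter_filter] at h4
    have h6 : (Finset.univ.filter fun h : HI w => (Finset.univ.filter fun y : Fin w → Bool =>
        f (Fin.append a.1 y) = true ∧ hsat h y).card = 1).card =
        (Finset.univ.filter fun h : HI w => P h a).card := by
      refine congrArg Finset.card ?_
      ext h
      rw [Finset.mem_filter, Finset.mem_filter, hP h a]
    rw [h6] at h4
    exact_mod_cast h4
  obtain ⟨L, hL⟩ := hPTL {x : Fin n → Bool // 1 ≤ wit f x} (HI w) P
    (1 / (8 * ((w : ℝ) + 3))) (1 / 2) (64 * (w + 3) * (n + 1)) (by norm_num) (by norm_num) hq0.le (by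
      intro μ hμ0 hμ1
      by_contra hcon
      push Not at hcon
      have h1 : ∑ h : HI w, ∑ a with P h a, μ a < ∑ _h : HI w, 1 / (8 * ((w : ℝ) + 3)) := by
        refine Finset.sum_lt_sum_of_nonempty ?_ fun h _ => hcon h
        exact ⟨(0, fun _ => (fun _ => false, false)), Finset.mem_univ _⟩
      rw [Finset.sum_const, Finset.card_univ, nsmul_eq_mul] at h1
      have h2 : ∑ h : HI w, ∑ a with P h a, μ a = ∑ a, μ a *
            ((Finset.univ.filter fun h : HI w => P h a).card : ℝ) := by
        simp only [Finset.sum_filter]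
        rw [Finset.sum_comm]
        refine Finset.sum_congr rfl fun a _ => ?_
        rw [← Finset.sum_filter, Finset.sum_const, nsmul_eq_mul, mul_comm]
      rw [h2] at h1
      have h3 : ∀ a : {x : Fin n → Bool // 1 ≤ wit f x},
          μ a * ((Fintype.card (HI w) : ℝ) * (1 / (8 * ((w : ℝ) + 3)))) ≤
          μ a * ((Finset.univ.filter fun h : HI w => P h a).card : ℝ) := by
        intro a
        refine mul_le_mul_of_nonneg_left ?_ (hμ0 a)
        have h5 := hVV a
        rw [mul_one_div, div_le_iff₀ (by positivity)]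
        linarith
      have h6 := Finset.sum_le_sum fun a (_ : a ∈ (Finset.univ : Finset {x : Fin n → Bool // 1 ≤ wit f x})) => h3 a
      rw [← Finset.sum_mul, hμ1, one_mul] at h6
      linarith)
  refine ⟨L, fun x hx => ?_⟩
  have h1 := hL ⟨x, hx⟩
  by_contra hcon
  push Not at hcon
  have h2 : (Finset.univ.filter fun j => P (L j) ⟨x, hx⟩).card = 0 := by
    rw [Finset.card_eq_zero, Finset.filter_eq_empty_iff]
    intro j _ hj
    exact hcon j ((hP _ _).1 hj)
  rw [h2, Nat.cast_zero] at h1
  have h3 : (Fintype.card {x : Fin n → Bool // 1 ≤ wit f x} : ℝ) ≤ 2 ^ n := by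
    have h4 := Fintype.card_subtype_le (fun x : Fin n → Bool => 1 ≤ wit f x)
    rw [Fintype.card_fun, Fintype.card_bool, Fintype.card_fin] at h4
    exact_mod_cast h4
  have h5 : Real.log (Fintype.card {x : Fin n → Bool // 1 ≤ wit f x}) ≤ n * Real.log 2 := by
    rw [← Real.log_pow]
    refine Real.log_le_log ?_ h3
    have : 0 < Fintype.card {x : Fin n → Bool // 1 ≤ wit f x} := Fintype.card_pos
    exact_mod_cast this
  have h6 : Real.log 2 < 0.7 := by linarith [Real.log_two_lt_d9]
  have h7 : (1 - 1 / 2 : ℝ) * (1 / (8 * ((w : ℝ) + 3))) * ((64 * (w + 3) * (n + 1) : ℕ) : ℝ) =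
      4 * ((n : ℝ) + 1) := by
    push_cast
    field_simp
    ring
  rw [h7] at h1
  have h8 : (n : ℝ) * Real.log 2 ≤ n * 0.7 := mul_le_mul_of_nonneg_left h6.le (by positivity)
  have h9 : (0 : ℝ) ≤ n := by positivity
  linarith

end Pool.Agent.ISO
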